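import Mathlib
import Pool.Agent.Helper45_PGE.Defs

/-!
# Module EXT of squad PGE: rational maps from smooth affine curves to proper schemes are regular
-/

set_option autoImplicit false

open CategoryTheory AlgebraicGeometry

universe u

namespace Pool.Agent.PGE.H87

/-- local rings of Dedekind domains are valuation rings of the fraction field -/
theorem loc_val (A T L : Type u) [CommRing A] [IsDedekindDomain A] [CommRing T] [Algebra A T]
    [Field L] [Algebra A L] [IsFractionRing A L] (p : Ideal A) [p.IsPrime]
    [IsLocalization.AtPrime T p] :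
    ∃ (_ : IsDomain T) (_ : Algebra T L), IsScalarTower A T L ∧ ValuationRing T ∧
      IsFractionRing T L := by
  have hle : p.primeCompl ≤ nonZeroDivisors A := p.primeCompl_le_nonZeroDivisors
  have hdom : IsDomain T := IsLocalization.isDomain_of_le_nonZeroDivisors T hle
  have hu : ∀ y : p.primeCompl, IsUnit (algebraMap A L y) := by
    intro y
    rw [isUnit_iff_ne_zero, Ne, map_eq_zero_iff _ (IsFractionRing.injective A L)]
    exact nonZeroDivisors.ne_zero (hle y.2)
  let _ : Algebra T L := (IsLocalization.lift (M := p.primeCompl) (S := T) hu).toAlgebra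
  have hst : IsScalarTower A T L := IsScalarTower.of_algebraMap_eq (fun a =>
    (IsLocalization.lift_eq (M := p.primeCompl) (S := T) hu a).symm)
  have hfr : IsFractionRing T L :=
    IsFractionRing.isFractionRing_of_isDomain_of_isLocalization p.primeCompl T L
  refine ⟨hdom, _, hst, ?_, hfr⟩
  have hloc : IsLocalRing T := IsLocalization.AtPrime.isLocalRing T p
  rw [ValuationRing.iff_local_bezout_domain]
  refine ⟨hloc, ?_⟩
  suffices h : IsPrincipalIdealRing T from inferInstance
  by_cases hp : p = ⊥
  · subst hp
    have h1 : IsFractionRing A T := by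
      have h2 : (⊥ : Ideal A).primeCompl = nonZeroDivisors A := by
        ext a
        simp [Ideal.primeCompl, mem_nonZeroDivisors_iff_ne_zero]
      have h3 : IsLocalization (⊥ : Ideal A).primeCompl T := inferInstance
      rw [h2] at h3
      exact h3
    exact (IsFractionRing.toField A (K := T)).toIsField.isPrincipalIdealRing
  · have h1 := IsLocalization.AtPrime.isDiscreteValuationRing_of_dedekind_domain A hp T
    infer_instance

/-- the homomorphism from a stalk to the fraction field -/
theorem stalk_hom (A L : Type u) [CommRing A] [IsDedekindDomain A] [Field L] [Algebra A L]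
    [IsFractionRing A L] (x : Spec (.of A)) :
    ∃ (_ : IsDomain ((Spec (.of A)).presheaf.stalk x))
      (_ : Algebra ((Spec (.of A)).presheaf.stalk x) L),
      (algebraMap ((Spec (.of A)).presheaf.stalk x) L).comp
        (StructureSheaf.toStalk A x).hom = algebraMap A L ∧
      ValuationRing ((Spec (.of A)).presheaf.stalk x) ∧
      IsFractionRing ((Spec (.of A)).presheaf.stalk x) L := by
  let _ : Algebra A ((Spec (.of A)).presheaf.stalk x) := (StructureSheaf.toStalk A x).hom.toAlgebra
  have h1 : IsLocalization.AtPrime ((Spec (.of A)).presheaf.stalk x) x.asIdeal :=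
    StructureSheaf.IsLocalization.to_stalk A x
  obtain ⟨hd, ha, hst, hv, hf⟩ := loc_val A ((Spec (.of A)).presheaf.stalk x) L x.asIdeal
  exact ⟨hd, ha, hst.algebraMap_eq.symm, hv, hf⟩

theorem ext : EXTStmt.{u} := by
  intro k _ X f _ L _ _ A _ _ _ φ hφ
  let C : Scheme.{u} := Spec (.of A)
  let sC : C ⟶ Spec (.of k) := Spec.map (CommRingCat.ofHom (algebraMap k A))
  let j : Spec (.of L) ⟶ C := Spec.map (CommRingCat.ofHom (algebraMap A L))
  have hj : j ≫ sC = Spec.map (CommRingCat.ofHom (algebraMap k L)) := by
    change Spec.map _ ≫ Spec.map _ = _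
    rw [← Spec.map_comp, ← CommRingCat.ofHom_comp, ← IsScalarTower.algebraMap_eq]
  have key : ∀ x : C, ∃ (ψ : Spec (C.presheaf.stalk x) ⟶ X)
      (κ : Spec (.of L) ⟶ Spec (C.presheaf.stalk x)), ψ ≫ f = C.fromSpecStalk x ≫ sC ∧
      κ ≫ C.fromSpecStalk x = j ∧ κ ≫ ψ = φ ∧ (x = genericPoint C → IsIso κ) := by
    intro x
    obtain ⟨hd, ha, hst, hv, hf⟩ := stalk_hom A L x
    let κ : Spec (.of L) ⟶ Spec (C.presheaf.stalk x) :=
      Spec.map (CommRingCat.ofHom (algebraMap (C.presheaf.stalk x) L))
    have hκ : κ ≫ C.fromSpecStalk x = j := by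
      have e : C.fromSpecStalk x = Spec.map (StructureSheaf.toStalk A x) :=
        Spec.fromSpecStalk_eq' (.of A) x
      have e2 : Spec.map (StructureSheaf.toStalk A x ≫
          CommRingCat.ofHom (algebraMap (C.presheaf.stalk x) L)) =
            κ ≫ Spec.map (StructureSheaf.toStalk A x) := Spec.map_comp _ _
      have e3 : StructureSheaf.toStalk A x ≫
          CommRingCat.ofHom (algebraMap (C.presheaf.stalk x) L) =
            CommRingCat.ofHom (algebraMap A L) := CommRingCat.hom_ext hst
      rw [e3] at e2
      exact (congrArg (κ ≫ ·) e).trans e2.symm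
    have hval : ValuativeCriterion f := by
      have h1 : IsProper f := inferInstance
      rw [IsProper.eq_valuativeCriterion] at h1
      exact h1.1.1.1
    let S : ValuativeCommSq f :=
      { R := C.presheaf.stalk x, domain := hd, valuationRing := hv, K := L, algebra := ha,
        isFractionRing := hf, i₁ := φ, i₂ := C.fromSpecStalk x ≫ sC,
        commSq := ⟨by
          rw [hφ, ← hj, ← hκ, Category.assoc]
          rfl⟩ }
    obtain ⟨⟨l⟩⟩ := hval.existence S
    refine ⟨l.l, κ, l.fac_right, hκ, l.fac_left, ?_⟩
    rintro rfl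
    have hfield : IsField (C.presheaf.stalk (genericPoint C)) :=
      (inferInstance : Field C.functionField).toIsField
    have hbij : Function.Bijective (algebraMap (C.presheaf.stalk (genericPoint C)) L) :=
      IsField.localization_map_bijective (M := nonZeroDivisors _) zero_notMem_nonZeroDivisors
        hfield
    have h2 : IsIso (CommRingCat.ofHom (algebraMap (C.presheaf.stalk (genericPoint C)) L)) :=
      (ConcreteCategory.isIso_iff_bijective _).2 hbij
    have h3 : IsIso (Spec.map
      (CommRingCat.ofHom (algebraMap (C.presheaf.stalk (genericPoint C)) L))) := inferInstance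
    exact h3
  choose ψ κ hψf hκ hκψ hκi using key
  let g : ∀ x : C, C.PartialMap X := fun x =>
    Scheme.PartialMap.ofFromSpecStalk sC f (ψ x) (hψf x)
  have hgx : ∀ x, x ∈ (g x).domain := fun x =>
    Scheme.PartialMap.mem_domain_ofFromSpecStalk sC f (ψ x) (hψf x)
  have hgs : ∀ x, (g x).fromSpecStalkOfMem (hgx x) = ψ x := fun x =>
    Scheme.PartialMap.fromSpecStalkOfMem_ofFromSpecStalk sC f (ψ x) (hψf x)
  -- a morphism from `Spec L` to the domain gives `φ`
  have huniq : ∀ (x : C) (l : Spec (.of L) ⟶ (g x).domain.toScheme), l ≫ (g x).domain.ι = j →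
      l ≫ (g x).hom = φ := by
    intro x l hl
    have h1 : l = κ x ≫ (g x).domain.fromSpecStalkOfMem x (hgx x) := by
      rw [← cancel_mono (g x).domain.ι, hl, Category.assoc,
        Scheme.Opens.fromSpecStalkOfMem_ι, hκ]
    rw [h1, Category.assoc]
    exact (congrArg (κ x ≫ ·) (hgs x)).trans (hκψ x)
  let η : C := genericPoint C
  have hηmem : ∀ U : C.Opens, Dense (U : Set C) → η ∈ U := fun U hU =>
    (genericPoint_specializes _).mem_open U.2 hU.nonempty.choose_spec
  have hff : ∀ p : C.PartialMap X, ∀ (hη : η ∈ p.domain),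
      κ η ≫ p.domain.fromSpecStalkOfMem η hη ≫ p.domain.ι = j := by
    intro p hη
    rw [Scheme.Opens.fromSpecStalkOfMem_ι, hκ]
  have hiso : IsIso (κ η) := hκi η rfl
  have heq : ∀ x, (g x).toRationalMap = (g η).toRationalMap := by
    intro x
    apply Scheme.RationalMap.eq_of_fromFunctionField_eq
    rw [Scheme.RationalMap.fromFunctionField_toRationalMap,
      Scheme.RationalMap.fromFunctionField_toRationalMap, ← cancel_epi (κ η)]
    have h1 : ∀ y : C, κ η ≫ (g y).fromFunctionField = φ := by
      intro y
      have h2 := huniq y (κ η ≫ (g y).domain.fromSpecStalkOfMem η (hηmem _ (g y).dense_domain))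
        (by rw [Category.assoc]; exact hff (g y) _)
      rw [Category.assoc] at h2
      exact h2
    rw [h1, h1]
  have hsep : X.IsSeparated := by
    rw [Scheme.isSeparated_iff, ← Limits.terminal.comp_from f]
    infer_instance
  let r : C ⤏ X := (g η).toRationalMap
  have hdom : r.domain = ⊤ := by
    rw [eq_top_iff]
    intro x _
    exact Scheme.RationalMap.mem_domain.2 ⟨g x, hgx x, heq x⟩
  let p : C.PartialMap X := r.toPartialMap
  have hpd : (⊤ : C.Opens) ≤ p.domain := hdom.symm.le
  have hp : p.toRationalMap = (g η).toRationalMap := r.toRationalMap_toPartialMap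
  have hpφ : κ η ≫ p.fromFunctionField = φ := by
    have h1 := congrArg Scheme.RationalMap.fromFunctionField hp
    rw [Scheme.RationalMap.fromFunctionField_toRationalMap,
      Scheme.RationalMap.fromFunctionField_toRationalMap] at h1
    rw [h1]
    have h2 := huniq η (κ η ≫ (g η).domain.fromSpecStalkOfMem η (hηmem _ (g η).dense_domain))
        (by rw [Category.assoc]; exact hff (g η) _)
    rw [Category.assoc] at h2
    exact h2
  let h : C ⟶ X := C.topIso.inv ≫ C.homOfLE hpd ≫ p.hom
  have hjh : j ≫ h = φ := by
    have h1 : j ≫ C.topIso.inv ≫ C.homOfLE hpd =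
        κ η ≫ p.domain.fromSpecStalkOfMem η (hηmem _ p.dense_domain) := by
      rw [← cancel_mono p.domain.ι, Category.assoc, Category.assoc, Category.assoc,
        Scheme.homOfLE_ι, hff p]
      have h2 : C.topIso.inv ≫ (⊤ : C.Opens).ι = 𝟙 C := by
        simp
      rw [h2, Category.comp_id]
    have h3 : j ≫ h = (j ≫ C.topIso.inv ≫ C.homOfLE hpd) ≫ p.hom := by
      simp only [h, Category.assoc]
    rw [h3, h1, Category.assoc]
    exact hpφ
  refine ⟨h, ?_, hjh⟩
  have hjd : IsDominant j := by
    refine ⟨?_⟩
    refine (PrimeSpectrum.denseRange_comap_iff_ker_le_nilRadical (algebraMap A L)).2 ?_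
    rw [(RingHom.injective_iff_ker_eq_bot _).1 (IsFractionRing.injective A L)]
    exact bot_le
  refine ext_of_isDominant j ?_
  rw [← Category.assoc, hjh, hφ]
  exact hj.symm

end Pool.Agent.PGE.H87
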