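import Mathlib
import Pool.Agent.Helper45_PGE.Defs

/-!
# Module SMO of squad PGE: the ring `k[v, s, 1/D]` is Dedekind and standard smooth
-/

set_option autoImplicit false

open Polynomial

universe u

namespace Pool.Agent.PGE.H87

/-- polynomials in one variable are standard smooth of relative dimension one -/
theorem poly_smooth (k : Type u) [Field k] :
    Algebra.IsStandardSmoothOfRelativeDimension 1 k k[X] := by
  classical
  let v : PEmpty.{1} → MvPolynomial PUnit.{1} k := fun i => i.elim
  let P := Algebra.PreSubmersivePresentation.naive (R := k) (v := v) (fun i => i.elim)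
    (fun i => i.elim)
  have hP : IsUnit P.jacobian := by
    rw [Algebra.PreSubmersivePresentation.jacobian_eq_jacobiMatrix_det, Matrix.det_isEmpty, map_one]
    exact isUnit_one
  let P' : Algebra.SubmersivePresentation k _ PUnit.{1} PEmpty.{1} :=
    { toPreSubmersivePresentation := P, jacobian_isUnit := hP }
  have h1 : Algebra.IsStandardSmoothOfRelativeDimension 1 k
      (MvPolynomial PUnit.{1} k ⧸ Ideal.span (Set.range v)) :=
    P'.isStandardSmoothOfRelativeDimension (by
      simp [Algebra.Presentation.dimension])
  have hv : Ideal.span (Set.range v) = ⊥ := by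
    rw [Set.range_eq_empty, Ideal.span_empty]
  have e : (MvPolynomial PUnit.{1} k ⧸ Ideal.span (Set.range v)) ≃ₐ[k] k[X] :=
    ((Ideal.quotientEquivAlgOfEq k hv).trans (AlgEquiv.quotientBot k _)).trans
      (MvPolynomial.uniqueAlgEquiv k PUnit.{1})
  exact Algebra.IsStandardSmoothOfRelativeDimension.of_algEquiv 1 e

/-- a quadratic extension without ramification of a localization of `k[X]` -/
theorem smo_core (k : Type u) [Field k] [CharZero k] (A R : Type u) [CommRing A] [IsDomain A]
    [Algebra k A] [CommRing R] [IsDomain R] [Algebra k R] [Algebra k[X] R] [Algebra k[X] A]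
    [Algebra R A] [IsScalarTower k k[X] R] [IsScalarTower k R A] [IsScalarTower k[X] R A]
    (D : k[X]) [IsLocalization.Away D R] (hD : D ≠ 0)
    (hinj : Function.Injective (algebraMap R A)) (s : A) (Q : k[X])
    (hs : s ^ 2 = algebraMap k[X] A Q) (hQ : IsUnit (algebraMap k[X] A Q))
    (htop : Algebra.adjoin R {s} = ⊤) :
    IsDedekindDomain A ∧ Algebra.IsStandardSmoothOfRelativeDimension 1 k A := by
  have hle : Submonoid.powers D ≤ nonZeroDivisors k[X] := by
    rw [Submonoid.powers_le]
    exact mem_nonZeroDivisors_of_ne_zero hD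
  have hR : IsDedekindDomain R := IsLocalization.isDedekindDomain k[X] hle R
  have hsi : IsIntegral R s := by
    refine IsIntegral.of_pow (n := 2) (by norm_num) ?_
    rw [hs, IsScalarTower.algebraMap_apply k[X] R A]
    exact isIntegral_algebraMap
  have hfin : Module.Finite R A := by
    rw [Module.finite_def, ← Algebra.top_toSubmodule, ← htop]
    exact hsi.fg_adjoin_singleton
  have hsu : IsUnit s := by
    rw [← hs] at hQ
    exact (isUnit_pow_iff (by norm_num)).1 hQ
  have htwo : IsUnit (2 : A) := by
    have h2 : IsUnit (2 : k) := isUnit_iff_ne_zero.2 two_ne_zero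
    have h3 := h2.map (algebraMap k A)
    rwa [map_ofNat] at h3
  have hDs : KaehlerDifferential.D R A s = 0 := by
    have h1 : KaehlerDifferential.D R A (s ^ 2) = 0 := by
      rw [hs, IsScalarTower.algebraMap_apply k[X] R A]
      exact Derivation.map_algebraMap _ _
    rw [Derivation.leibniz_pow] at h1
    have h2 : (2 * s) • KaehlerDifferential.D R A s = 0 := by
      rw [mul_smul, ← h1]
      simp [two_smul]
    exact ((htwo.mul hsu).smul_eq_zero).1 h2
  have hun : Algebra.FormallyUnramified R A := by
    refine ⟨?_⟩
    rw [← not_nontrivial_iff_subsingleton]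
    intro hnt
    obtain ⟨w, hw⟩ := exists_ne (0 : Ω[A⁄R])
    apply hw
    have hall : ∀ a : A, KaehlerDifferential.D R A a = 0 := by
      intro a
      have ha : a ∈ Algebra.adjoin R {s} := by rw [htop]; trivial
      induction ha using Algebra.adjoin_induction with
      | mem x hx =>
        rw [Set.mem_singleton_iff] at hx
        rw [hx, hDs]
      | algebraMap r => exact Derivation.map_algebraMap _ _
      | add x y _ _ hx hy => rw [map_add, hx, hy, add_zero]
      | mul x y _ _ hx hy => rw [Derivation.leibniz, hx, hy, smul_zero, smul_zero, add_zero]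
    have hspan := KaehlerDifferential.span_range_derivation R A
    have hr : Set.range (KaehlerDifferential.D R A) = {0} := by
      ext z
      constructor
      · rintro ⟨a, rfl⟩
        rw [Set.mem_singleton_iff]
        exact hall a
      · rintro rfl
        exact ⟨0, map_zero _⟩
    rw [hr, Submodule.span_zero_singleton] at hspan
    have hw2 : w ∈ (⊤ : Submodule A Ω[A⁄R]) := trivial
    rw [← hspan] at hw2
    simpa using hw2
  have hded : IsDedekindDomain A := isDedekindDomain.of_formallyUnramified R A
  refine ⟨hded, ?_⟩
  have hfaith : FaithfulSMul R A := (faithfulSMul_iff_algebraMap_injective R A).2 hinj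
  have htf : Module.IsTorsionFree R A := inferInstance
  have hflat : Module.Flat R A := inferInstance
  have hfp : Algebra.FinitePresentation R A := (Algebra.FinitePresentation.of_finiteType).1
    inferInstance
  have het : Algebra.Etale R A := Algebra.Etale.of_formallyUnramified_of_flat
  have h0 : Algebra.IsStandardSmoothOfRelativeDimension 0 R A :=
    Algebra.Etale.iff_isStandardSmoothOfRelativeDimension_zero.1 het
  have h1 : Algebra.IsStandardSmoothOfRelativeDimension 0 k[X] R :=
    Algebra.IsStandardSmoothOfRelativeDimension.localization_away D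
  have h2 : Algebra.IsStandardSmoothOfRelativeDimension 1 k k[X] := poly_smooth k
  have h3 : Algebra.IsStandardSmoothOfRelativeDimension (0 + 1) k R :=
    Algebra.IsStandardSmoothOfRelativeDimension.trans 1 0 k k[X] R
  have h4 : Algebra.IsStandardSmoothOfRelativeDimension (0 + (0 + 1)) k A :=
    Algebra.IsStandardSmoothOfRelativeDimension.trans (0 + 1) 0 k R A
  exact h4

/-- SMO -/
theorem smo : SMOStmt.{u} := by
  intro k L _ _ _ _ _ v s Q D hv hs hQ hD hQD htop
  have hvD : ∀ p : k[X], p ≠ 0 → aeval v p ≠ 0 := fun p hp h =>
    hp (transcendental_iff.1 hv p h)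
  set A := Algebra.adjoin k ({v, s, (aeval v D)⁻¹} : Set L) with hA
  have hvA : v ∈ A := Algebra.subset_adjoin (by simp)
  have hsA : s ∈ A := Algebra.subset_adjoin (by simp)
  have hdA : (aeval v D)⁻¹ ∈ A := Algebra.subset_adjoin (by simp)
  let v' : A := ⟨v, hvA⟩
  let s' : A := ⟨s, hsA⟩
  let _ : Algebra k[X] A := (aeval v' : k[X] →ₐ[k] A).toAlgebra
  have hmap : ∀ p : k[X], ((algebraMap k[X] A p : A) : L) = aeval v p := by
    intro p
    change ((aeval v' p : A) : L) = aeval v p
    rw [← Subalgebra.coe_val, ← Polynomial.aeval_algHom_apply]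
    rfl
  have _ : IsScalarTower k k[X] A := IsScalarTower.of_algebraMap_eq' (by
    ext c
    change _ = ((aeval v' (algebraMap k k[X] c) : A) : L)
    rw [AlgHom.commutes])
  have hDu : IsUnit (algebraMap k[X] A D) := by
    refine IsUnit.of_mul_eq_one (⟨(aeval v D)⁻¹, hdA⟩ : A) (Subtype.ext ?_)
    rw [Subalgebra.coe_mul, hmap, Subalgebra.coe_one]
    exact mul_inv_cancel₀ (hvD D hD)
  let R := Localization.Away D
  have hle : Submonoid.powers D ≤ nonZeroDivisors k[X] := by
    rw [Submonoid.powers_le]
    exact mem_nonZeroDivisors_of_ne_zero hD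
  have _ : IsDomain R := IsLocalization.isDomain_localization hle
  let ρ : R →+* A := IsLocalization.Away.lift D hDu
  let _ : Algebra R A := ρ.toAlgebra
  have hρ : ∀ p : k[X], algebraMap R A (algebraMap k[X] R p) = algebraMap k[X] A p := fun p =>
    IsLocalization.Away.lift_eq D hDu p
  have _ : IsScalarTower k[X] R A := IsScalarTower.of_algebraMap_eq (fun p => (hρ p).symm)
  have _ : IsScalarTower k R A := IsScalarTower.of_algebraMap_eq (fun c => by
    rw [IsScalarTower.algebraMap_apply k k[X] R, hρ, ← IsScalarTower.algebraMap_apply])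
  have hinj0 : Function.Injective (algebraMap k[X] A) := by
    rw [injective_iff_map_eq_zero]
    intro p hp
    by_contra h
    apply hvD p h
    rw [← hmap, hp]
    rfl
  have hinj : Function.Injective (algebraMap R A) := by
    rw [injective_iff_map_eq_zero]
    intro r hr
    obtain ⟨⟨p, d⟩, h⟩ := IsLocalization.surj (Submonoid.powers D) r
    have h1 : algebraMap R A (algebraMap k[X] R p) = 0 := by
      rw [← h, map_mul, hr, zero_mul]
    rw [hρ] at h1
    have h2 : p = 0 := hinj0 (by rw [h1, map_zero])
    simp only [h2, map_zero] at h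
    have h3 : algebraMap k[X] R d ≠ 0 := by
      intro h4
      have h5 : (d : k[X]) = 0 := IsLocalization.injective R hle (by rw [h4, map_zero])
      exact nonZeroDivisors.ne_zero (hle d.2) h5
    exact (mul_eq_zero.1 h).resolve_right h3
  have hs' : s' ^ 2 = algebraMap k[X] A Q := by
    apply Subtype.ext
    rw [hmap, ← hs]
    rfl
  have hQu : IsUnit (algebraMap k[X] A Q) := by
    obtain ⟨E, hE⟩ := hQD
    rw [hE, map_mul] at hDu
    exact isUnit_of_mul_isUnit_left hDu
  have hall : Algebra.adjoin R {s'} = ⊤ := by
    rw [eq_top_iff]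
    rintro ⟨a, ha⟩ -
    induction ha using Algebra.adjoin_induction with
    | mem x hx =>
      simp only [Set.mem_insert_iff, Set.mem_singleton_iff] at hx
      rcases hx with rfl | rfl | rfl
      · have h1 : (⟨x, hvA⟩ : A) = algebraMap R A (algebraMap k[X] R X) := by
          rw [hρ]
          apply Subtype.ext
          rw [hmap, aeval_X]
        rw [h1]
        exact Subalgebra.algebraMap_mem _ _
      · exact Algebra.subset_adjoin rfl
      · have h1 : (⟨(aeval v D)⁻¹, hdA⟩ : A) =
            algebraMap R A (IsLocalization.Away.invSelf D) := by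
          have h2 : algebraMap R A (algebraMap k[X] R D) *
              algebraMap R A (IsLocalization.Away.invSelf D) = 1 := by
            rw [← map_mul, IsLocalization.Away.mul_invSelf, map_one]
          have h3 : algebraMap R A (algebraMap k[X] R D) * (⟨(aeval v D)⁻¹, hdA⟩ : A) = 1 := by
            rw [hρ]
            apply Subtype.ext
            rw [Subalgebra.coe_mul, hmap, Subalgebra.coe_one]
            exact mul_inv_cancel₀ (hvD D hD)
          have h4 : algebraMap R A (algebraMap k[X] R D) ≠ 0 := by
            intro h5
            rw [h5, zero_mul] at h2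
            exact zero_ne_one h2
          exact mul_left_cancel₀ h4 (h3.trans h2.symm)
        rw [h1]
        exact Subalgebra.algebraMap_mem _ _
    | algebraMap r =>
      have h1 : (⟨algebraMap k L r, Subalgebra.algebraMap_mem _ _⟩ : A) =
          algebraMap R A (algebraMap k R r) := by
        rw [← IsScalarTower.algebraMap_apply]
        rfl
      rw [h1]
      exact Subalgebra.algebraMap_mem _ _
    | add x y hx hy h1 h2 => exact add_mem h1 h2
    | mul x y hx hy h1 h2 => exact mul_mem h1 h2
  obtain ⟨h1, h2⟩ := smo_core k A R D hD hinj s' Q hs' hQu hall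
  refine ⟨h1, ?_, ?_, h2⟩
  · exact Algebra.FiniteType.adjoin_of_finite (Set.toFinite _)
  · apply IsFractionRing.of_field
    intro z
    have hz : z ∈ IntermediateField.adjoin k ({v, s} : Set L) := by rw [htop]; trivial
    obtain ⟨x, hx, y, hy, rfl⟩ := IntermediateField.mem_adjoin_iff_div.1 hz
    have hsub : Algebra.adjoin k ({v, s} : Set L) ≤ A := Algebra.adjoin_mono (by
      intro w hw
      simp only [Set.mem_insert_iff, Set.mem_singleton_iff] at hw ⊢
      tauto)
    exact ⟨⟨x, hsub hx⟩, ⟨y, hsub hy⟩, rfl⟩

end Pool.Agent.PGE.H87
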